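import Mathlib
import Pool.Agent.Y114.RM.Stm5
import Pool.Agent.Y809.RM.Rank

/-!
# A torus of maximal rank is its own centralizer
-/

set_option autoImplicit false

namespace Pool.Agent.Y785.RM

open Module Polynomial Pool.Agent.Y114.RM

section diag

variable {K : Type} [Field K] {V : Type} [AddCommGroup V] [Module K V]

/-- diagonalizable -/
def Dg (a : End K V) : Prop := ⨆ μ, End.eigenspace a μ = ⊤

/-- generalized eigenspaces of a diagonalizable endomorphism are eigenspaces -/
theorem mge {a : End K V} (ha : Dg a) (μ : K) : a.maxGenEigenspace μ = a.eigenspace μ := by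
  have hle : ∀ ν, a.eigenspace ν ≤ a.maxGenEigenspace ν := fun ν =>
    Module.End.eigenspace_le_maxGenEigenspace
  refine le_antisymm ?_ (hle μ)
  intro x hx
  have h1 : x ∈ a.eigenspace μ ⊔ ⨆ (ν) (_ : ν ≠ μ), a.eigenspace ν := by
    have h2 : (⊤ : Submodule K V) ≤ a.eigenspace μ ⊔ ⨆ (ν) (_ : ν ≠ μ), a.eigenspace ν := by
      rw [← ha]
      refine iSup_le fun ν => ?_
      by_cases h : ν = μ
      · rw [h]; exact le_sup_left
      · exact (le_iSup₂_of_le (f := fun ν (_ : ν ≠ μ) => a.eigenspace ν) ν h le_rfl).trans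
          le_sup_right
    exact h2 trivial
  obtain ⟨y, hy, z, hz, rfl⟩ := Submodule.mem_sup.1 h1
  have hz1 : z ∈ a.maxGenEigenspace μ := by
    have := (a.maxGenEigenspace μ).sub_mem hx (hle μ hy)
    rwa [add_sub_cancel_left] at this
  have hz2 : z ∈ ⨆ (ν) (_ : ν ≠ μ), a.maxGenEigenspace ν := by
    refine (iSup₂_mono fun ν _ => hle ν) hz
  have h3 := (a.independent_maxGenEigenspace μ).le_bot ⟨hz1, hz2⟩
  rw [Submodule.mem_bot] at h3
  rw [h3, add_zero]
  exact hy

/-- `e` is a basis of eigenvectors -/
def IsEB {ι : Type} (e : Basis ι K V) (a : End K V) (w : ι → K) : Prop := ∀ i, a (e i) = w i • e i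

theorem IsEB.dg {ι : Type} {e : Basis ι K V} {a : End K V} {w : ι → K} (h : IsEB e a w) :
    Dg a := by
  unfold Dg
  rw [eq_top_iff, ← e.span_eq, Submodule.span_le]
  rintro _ ⟨i, rfl⟩
  refine (le_iSup (fun μ => End.eigenspace a μ) (w i)) ?_
  rw [End.mem_eigenspace_iff]
  exact h i

variable [FiniteDimensional K V]

/-- joint diagonalization -/
theorem joint {J : Type} (f : J → End K V) (hd : ∀ j, Dg (f j))
    (hc : ∀ i j, f i * f j = f j * f i) :
    ∃ (ι : Type) (_ : Fintype ι) (e : Basis ι K V) (w : J → ι → K), ∀ j, IsEB e (f j) (w j) := by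
  classical
  have h1 := End.iSup_iInf_maxGenEigenspace_eq_top_of_iSup_maxGenEigenspace_eq_top_of_commute f
    (fun i j _ => hc i j) (fun j => by
      rw [eq_top_iff, ← hd j]
      exact iSup_mono fun μ => (mge (hd j) μ).ge)
  set s : Set V := {v | ∀ j, ∃ c : K, f j v = c • v} with hs
  have h2 : (⊤ : Submodule K V) ≤ Submodule.span K s := by
    rw [← h1]
    refine iSup_le fun χ => ?_
    intro x hx
    apply Submodule.subset_span
    intro j
    rw [Submodule.mem_iInf] at hx
    have := hx j
    rw [mge (hd j), End.mem_eigenspace_iff] at this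
    exact ⟨χ j, this⟩
  let e := Basis.ofSpan h2
  have he : ∀ i, e i ∈ s := fun i => Basis.ofSpan_subset h2 ⟨i, rfl⟩
  have hfin : Fintype ((linearIndepOn_empty K (id : V → V)).extend (Set.empty_subset s)) :=
    FiniteDimensional.fintypeBasisIndex e
  choose w hw using he
  exact ⟨_, hfin, e, fun j i => w i j, fun j i => hw i j⟩

variable {ι : Type} [Fintype ι] {e : Basis ι K V}

omit [FiniteDimensional K V] [Fintype ι] in
theorem aeval_eb {a : End K V} {w : ι → K} (h : IsEB e a w) (p : K[X]) :
    IsEB e (aeval a p) (fun i => p.eval (w i)) := by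
  intro i
  have h1 : a.HasEigenvector (w i) (e i) := ⟨End.mem_eigenspace_iff.2 (h i), e.ne_zero i⟩
  exact Module.End.aeval_apply_of_hasEigenvector h1

omit [FiniteDimensional K V] [Fintype ι] in
theorem coord_eb {a : End K V} {w : ι → K} (h : IsEB e a w) (i : ι) (v : V) :
    e.coord i (a v) = w i * e.coord i v := by
  have h1 : (e.coord i) ∘ₗ a = w i • e.coord i := by
    refine e.ext fun j => ?_
    rw [LinearMap.comp_apply, h j, map_smul, LinearMap.smul_apply, smul_eq_mul, smul_eq_mul]
    by_cases hij : j = i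
    · rw [hij]
    · rw [Basis.coord_apply, Basis.repr_self, Finsupp.single_eq_of_ne (Ne.symm hij), mul_zero,
        mul_zero]
  exact LinearMap.congr_fun h1 v

omit [FiniteDimensional K V] in
theorem trace_eb {a : End K V} {w : ι → K} (h : IsEB e a w) :
    LinearMap.trace K V a = ∑ i, w i := by
  classical
  rw [LinearMap.trace_eq_matrix_trace K e, Matrix.trace]
  refine Finset.sum_congr rfl fun i _ => ?_
  rw [Matrix.diag_apply, LinearMap.toMatrix_apply, h i, map_smul, Finsupp.smul_apply,
    Basis.repr_self, Finsupp.single_eq_same, smul_eq_mul, mul_one]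

omit [Fintype ι] in
/-- diagonalizable endomorphisms: one basis -/
theorem single {a : End K V} (ha : Dg a) :
    ∃ (ι : Type) (_ : Fintype ι) (e : Basis ι K V) (w : ι → K), IsEB e a w := by
  obtain ⟨ι, h1, e, w, h⟩ := joint (fun _ : Unit => a) (fun _ => ha) (fun _ _ => rfl)
  exact ⟨ι, h1, e, w (), h ()⟩

omit [Fintype ι] in
/-- The sum of commuting diagonalizable endomorphisms. -/
theorem dg_add {a b : End K V} (ha : Dg a) (hb : Dg b) (hab : a * b = b * a) (c : K) :
    Dg (a + c • b) := by
  obtain ⟨ι, _, e, w, h⟩ := joint (fun j : Bool => if j then a else b)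
    (fun j => by cases j <;> simpa) (fun i j => by cases i <;> cases j <;> simp [hab])
  have h1 : IsEB e a (w true) := h true
  have h2 : IsEB e b (w false) := h false
  refine IsEB.dg (e := e) (w := fun i => w true i + c * w false i) fun i => ?_
  rw [LinearMap.add_apply, LinearMap.smul_apply, h1 i, h2 i, smul_smul, add_smul]

omit [Fintype ι] in
/-- the trace detects the polynomials in a diagonalizable endomorphism -/
theorem tr_zero [CharZero K] {a : End K V} (ha : Dg a) (q : K[X])
    (h : ∀ p : K[X], LinearMap.trace K V (aeval a p * aeval a q) = 0) : aeval a q = 0 := by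
  classical
  obtain ⟨ι, _, e, w, hw⟩ := single ha
  refine e.ext fun j => ?_
  rw [LinearMap.zero_apply, aeval_eb hw q j]
  set p : K[X] := ∏ β ∈ (Finset.univ.image w).erase (w j), (X - C β) with hp
  have h1 := h p
  rw [← map_mul, trace_eb (aeval_eb hw (p * q))] at h1
  have h2 : ∀ i, w i ≠ w j → p.eval (w i) = 0 := by
    intro i hi
    rw [hp, eval_prod]
    refine Finset.prod_eq_zero (i := w i) ?_ (by simp)
    rw [Finset.mem_erase, Finset.mem_image]
    exact ⟨hi, i, Finset.mem_univ _, rfl⟩
  have h3 : p.eval (w j) ≠ 0 := by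
    rw [hp, eval_prod, Finset.prod_ne_zero_iff]
    intro β hβ
    rw [eval_sub, eval_X, eval_C, sub_ne_zero]
    exact (Finset.mem_erase.1 hβ).1.symm
  have h4 : ∑ i, (p * q).eval (w i) =
      ((Finset.univ.filter (fun i => w i = w j)).card : K) * ((p * q).eval (w j)) := by
    rw [← nsmul_eq_mul, ← Finset.sum_const, Finset.sum_filter]
    refine Finset.sum_congr rfl fun i _ => ?_
    split_ifs with hi
    · rw [hi]
    · rw [eval_mul, h2 i hi, zero_mul]
  rw [h4, eval_mul] at h1
  have h5 : ((Finset.univ.filter (fun i => w i = w j)).card : K) ≠ 0 := by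
    rw [Nat.cast_ne_zero, ← Nat.pos_iff_ne_zero, Finset.card_pos]
    exact ⟨j, by simp⟩
  have h6 : q.eval (w j) = 0 := by
    rcases mul_eq_zero.1 h1 with h | h
    · exact absurd h h5
    · exact (mul_eq_zero.1 h).resolve_left h3
  show q.eval (w j) • e j = 0
  rw [h6, zero_smul]

omit [Fintype ι] in
/-- the square of the adjoint action of a diagonalizable endomorphism -/
theorem ad_sq {a : End K V} (ha : Dg a) {Y : End K V} (h : adE a (adE a Y) = 0) :
    adE a Y = 0 := by
  obtain ⟨ι, _, e, w, hw⟩ := single ha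
  have key : ∀ (Z : End K V) (i j : ι),
      e.coord i (adE a Z (e j)) = (w i - w j) * e.coord i (Z (e j)) := by
    intro Z i j
    rw [adE_apply, LinearMap.sub_apply, Module.End.mul_apply, Module.End.mul_apply, map_sub,
      coord_eb hw, hw j, map_smul, map_smul, smul_eq_mul, sub_mul]
  refine e.ext fun j => ?_
  apply e.ext_elem
  intro i
  have h1 := key (adE a Y) i j
  rw [h, LinearMap.zero_apply, map_zero, key Y i j] at h1
  have h2 : (w i - w j) * e.coord i (Y (e j)) = 0 := by
    rcases eq_or_ne (w i - w j) 0 with h3 | h3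
    · rw [h3, zero_mul]
    · rcases mul_eq_zero.1 h1.symm with h4 | h4
      · exact absurd h4 h3
      · exact h4
  rw [LinearMap.zero_apply, map_zero, Finsupp.zero_apply]
  have h3 := key Y i j
  rw [h2] at h3
  exact h3

omit [Fintype ι] in
/-- a generator of a commutative space of diagonalizable endomorphisms -/
theorem gen [Infinite K] (t : Submodule K (End K V)) (hd : ∀ a ∈ t, Dg a)
    (hc : ∀ a ∈ t, ∀ b ∈ t, a * b = b * a) :
    ∃ a ∈ t, ∀ b ∈ t, ∃ q : K[X], b = aeval a q := by
  classical
  obtain ⟨ι, _, e, w, hw⟩ := joint (fun j : t => (j : End K V)) (fun j => hd j j.2)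
    (fun i j => hc i i.2 j j.2)
  let W : ι → Dual K (End K V) := fun i =>
    { toFun := fun b => e.coord i (b (e i))
      map_add' := fun x y => by rw [LinearMap.add_apply, map_add]
      map_smul' := fun c x => by rw [LinearMap.smul_apply, map_smul, RingHom.id_apply] }
  have hW : ∀ b ∈ t, IsEB e b (fun i => W i b) := by
    intro b hb i
    have h1 := hw ⟨b, hb⟩ i
    have h2 : W i b = w ⟨b, hb⟩ i := by
      show e.coord i (b (e i)) = _
      rw [show b (e i) = w ⟨b, hb⟩ i • e i from h1, map_smul, Basis.coord_apply,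
        Basis.repr_self, Finsupp.single_eq_same, smul_eq_mul, mul_one]
    show b (e i) = W i b • e i
    rw [h2]
    exact h1
  obtain ⟨a, ha, hne⟩ := Module.Dual.exists_forall_mem_ne_zero_of_forall_exists t
    (fun x : {x : ι × ι // ∃ b ∈ t, (W x.1 - W x.2) b ≠ 0} => W x.1.1 - W x.1.2)
    (fun x => x.2)
  have hsep : ∀ i j, W i a = W j a → ∀ b ∈ t, W i b = W j b := by
    intro i j hij b hb
    by_contra hcon
    have h1 : ∃ b ∈ t, (W (i, j).1 - W (i, j).2) b ≠ 0 :=
      ⟨b, hb, by rw [LinearMap.sub_apply, sub_ne_zero]; exact hcon⟩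
    apply hne ⟨(i, j), h1⟩
    rw [LinearMap.sub_apply, sub_eq_zero]
    exact hij
  refine ⟨a, ha, fun b hb => ?_⟩
  let r : K → K := fun x => if h : ∃ i, W i a = x then W h.choose b else 0
  have hr : ∀ i, r (W i a) = W i b := by
    intro i
    have h : ∃ j, W j a = W i a := ⟨i, rfl⟩
    show (if h : ∃ j, W j a = W i a then W h.choose b else 0) = W i b
    rw [dif_pos h]
    exact hsep _ _ h.choose_spec b hb
  refine ⟨Lagrange.interpolate (Finset.univ.image fun i => W i a) id r, ?_⟩
  refine e.ext fun i => ?_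
  rw [hW b hb i, aeval_eb (hW a ha) _ i]
  congr 1
  have h1 := Lagrange.eval_interpolate_at_node (s := Finset.univ.image fun i => W i a) (v := id) r
    (Function.injective_id.injOn) (i := W i a) (Finset.mem_image.2 ⟨i, Finset.mem_univ _, rfl⟩)
  rw [id] at h1
  show W i b = eval (W i a) ((Lagrange.interpolate (Finset.univ.image fun i => W i a) id) r)
  rw [h1, hr]

omit [Fintype ι] in
theorem comm_aeval {b y : End K V} (h : Commute b y) (p : K[X]) : Commute (aeval b p) y := by
  induction p using Polynomial.induction_on' with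
  | add p q hp hq => rw [map_add]; exact hp.add_left hq
  | monomial n c =>
    rw [aeval_monomial]
    have h2 : Commute (algebraMap K (End K V) c) y := Algebra.commutes c y
    exact h2.mul_left (h.pow_left n)

omit [Fintype ι] in
theorem tr_nil {x n : End K V} (h : n * x = x * n) (hn : IsNilpotent n) :
    LinearMap.trace K V (n * x) = 0 :=
  (LinearMap.isNilpotent_trace_of_isNilpotent (Commute.isNilpotent_mul_right h hn)).eq_zero

end diag

section main

variable {K : Type} [Field K] [CharZero K] {V : Type} [AddCommGroup V] [Module K V]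
  [FiniteDimensional K V]

/-- the dimension of a commutative space of diagonalizable endomorphisms is at most the dimension
of all centralizers -/
theorem tor_le (G t : Submodule K (End K V)) (hG : IsLie G) (htG : t ≤ G)
    (hd : ∀ a ∈ t, Dg a) (hc : ∀ a ∈ t, ∀ b ∈ t, a * b = b * a) :
    ∀ X ∈ G, finrank K t ≤ finrank K (cen G X) := by
  classical
  obtain ⟨a, ha, hgen⟩ := gen t hd hc
  -- the pairing
  let Φ : K[X] →ₗ[K] Dual K t :=
    { toFun := fun p => (LinearMap.trace K V) ∘ₗ (LinearMap.mulLeft K (aeval a p)) ∘ₗ t.subtype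
      map_add' := fun p q => by
        ext b
        simp [add_mul]
      map_smul' := fun c p => by
        ext b
        simp }
  have hΦ : ∀ p (b : t), Φ p b = LinearMap.trace K V (aeval a p * b) := fun p b => rfl
  have hsurj : Function.Surjective Φ := by
    rw [← LinearMap.dualMap_injective_iff, injective_iff_map_eq_zero]
    intro x hx
    obtain ⟨b, rfl⟩ := (Module.evalEquiv K t).surjective x
    obtain ⟨q, hq⟩ := hgen b b.2
    have h1 : aeval a q = 0 := by
      refine tr_zero (hd a ha) q fun p => ?_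
      have h2 := LinearMap.congr_fun hx p
      rw [LinearMap.dualMap_apply, LinearMap.zero_apply] at h2
      rw [← hq]
      exact h2
    have h3 : b = 0 := Subtype.ext (by rw [hq, h1]; rfl)
    rw [h3, map_zero]
  let bt := Module.finBasis K t
  choose p hp using fun i => hsurj (bt.coord i)
  refine Pool.Agent.Y809.RM.rank K V G hG a (htG ha) (finrank K t) p (fun j => (bt j : End K V))
    (fun j => htG (bt j).2) ?_
  have h1 : (Matrix.of fun i j => LinearMap.trace K V (aeval a (p i) * (bt j : End K V))) = 1 := by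
    ext i j
    rw [Matrix.of_apply, ← hΦ, hp i, Basis.coord_apply, Basis.repr_self, Matrix.one_apply]
    by_cases hij : i = j
    · rw [hij, Finsupp.single_eq_same, if_pos rfl]
    · rw [Finsupp.single_eq_of_ne hij, if_neg hij]
  rw [h1, Matrix.det_one]
  exact one_ne_zero

/-- the trace form on the centralizer of a diagonalizable element -/
theorem nondeg_cen (G : Submodule K (End K V)) (hG : IsLie G) (hnd : NonDeg G) {a : End K V}
    (haG : a ∈ G) (ha : Dg a) {x : End K V} (hx : x ∈ G) (hxa : a * x = x * a)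
    (h : ∀ y ∈ G, a * y = y * a → LinearMap.trace K V (x * y) = 0) : x = 0 := by
  -- the adjoint action on `G`
  let T : End K G := (adE a).restrict (hG.adE_mem haG)
  have hT : ∀ y : G, ((T y : G) : End K V) = a * y - y * a := fun y => rfl
  have hdis : Disjoint (LinearMap.ker T) (LinearMap.range T) := by
    rw [Submodule.disjoint_def]
    rintro y hy ⟨z, rfl⟩
    have h1 : adE a (adE a (z : End K V)) = 0 := congrArg Subtype.val hy
    have h2 := ad_sq ha h1
    exact Subtype.ext h2
  have htop := Submodule.eq_top_of_disjoint _ _ (by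
    rw [add_comm, LinearMap.finrank_range_add_finrank_ker]) hdis
  refine hnd x hx fun Y hY => ?_
  have h1 : (⟨Y, hY⟩ : G) ∈ LinearMap.ker T ⊔ LinearMap.range T := by
    rw [htop]; trivial
  obtain ⟨c, hc, d, ⟨y, rfl⟩, hcd⟩ := Submodule.mem_sup.1 h1
  have h2 : Y = (c : End K V) + (a * (y : End K V) - (y : End K V) * a) :=
    (congrArg Subtype.val hcd).symm
  have h3 : a * (c : End K V) = c * a := by
    have h4 : ((T c : G) : End K V) = 0 := congrArg Subtype.val (LinearMap.mem_ker.1 hc)
    rw [hT] at h4
    exact sub_eq_zero.1 h4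
  rw [h2, mul_add, map_add, h c c.2 h3, zero_add, mul_sub, map_sub, sub_eq_zero,
    ← mul_assoc, ← mul_assoc, LinearMap.trace_mul_comm K (x * (y : End K V)) a, ← mul_assoc, hxa]

theorem cartan : S_CARTAN := by
  intro K _ _ _ V _ _ _ G t hG hnd hss htG hd hc ⟨X0, hX, hXt⟩
  classical
  obtain ⟨a, ha, hgen⟩ := gen t hd hc
  -- membership in the centralizer
  have hcomm : ∀ y : End K V, a * y = y * a → ∀ b ∈ t, b * y = y * b := by
    intro y hy b hb
    obtain ⟨q, rfl⟩ := hgen b hb
    have h1 : Commute a y := hy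
    exact comm_aeval h1 q
  choose! s hsG hs using hss
  -- the semisimple parts lie in `t`
  have hst : ∀ y ∈ G, (∀ b ∈ t, b * y = y * b) → s y ∈ t := by
    intro y hy hyt
    obtain ⟨h1, h2, h3⟩ := hs y hy
    have h4 : ∀ b ∈ t, Commute b (s y) := fun b hb => (h3 b (hyt b hb).symm).symm
    have ht' : ∀ z ∈ t ⊔ Submodule.span K {s y}, ∃ b ∈ t, ∃ c : K, z = b + c • s y := by
      intro z hz
      obtain ⟨b, hb, d, hd', rfl⟩ := Submodule.mem_sup.1 hz
      obtain ⟨c, rfl⟩ := Submodule.mem_span_singleton.1 hd'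
      exact ⟨b, hb, c, rfl⟩
    have h5 := tor_le G (t ⊔ Submodule.span K {s y}) hG
      (sup_le htG ((Submodule.span_singleton_le_iff_mem _ _).2 (hsG y hy))) (by
        intro z hz
        obtain ⟨b, hb, c, rfl⟩ := ht' z hz
        exact dg_add (hd b hb) h1 (h4 b hb) c) (by
        intro z hz z' hz'
        obtain ⟨b, hb, c, rfl⟩ := ht' z hz
        obtain ⟨b', hb', c', rfl⟩ := ht' z' hz'
        have k1 : Commute b b' := hc b hb b' hb'
        have k2 : Commute b (c' • s y) := (h4 b hb).smul_right c'
        have k3 : Commute (c • s y) b' := ((h4 b' hb').smul_right c).symm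
        have k4 : Commute (c • s y) (c' • s y) :=
          ((Commute.refl (s y)).smul_right c').smul_left c
        exact (k1.add_right k2).add_left (k3.add_right k4)) X0 hX
    have h6 : t = t ⊔ Submodule.span K {s y} :=
      Submodule.eq_of_le_of_finrank_le le_sup_left (h5.trans hXt)
    rw [h6]
    exact Submodule.mem_sup_right (Submodule.mem_span_singleton_self _)
  -- the nilpotent parts
  have hnt : ∀ y ∈ G, (∀ b ∈ t, b * y = y * b) → ∀ b ∈ t, Commute b (y - s y) := by
    intro y hy hyt b hb
    have k1 : Commute b y := hyt b hb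
    have k2 : Commute b (s y) := hc b hb (s y) (hst y hy hyt)
    exact k1.sub_right k2
  have htr : ∀ y ∈ G, (∀ b ∈ t, b * y = y * b) → ∀ b ∈ t, ∀ p : K[X],
      LinearMap.trace K V ((y - s y) * aeval b p) = 0 := by
    intro y hy hyt b hb p
    refine tr_nil ?_ (hs y hy).2.1
    have h1 : Commute b (y - s y) := hnt y hy hyt b hb
    exact (comm_aeval h1 p).symm
  have hadd : ∀ y ∈ G, (∀ b ∈ t, b * y = y * b) → ∀ z ∈ G, (∀ b ∈ t, b * z = z * b) →
      LinearMap.trace K V ((y - s y) * (z - s z)) = 0 := by
    intro y hy hyt z hz hzt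
    have hyz : y + z ∈ G := G.add_mem hy hz
    have hyzt : ∀ b ∈ t, b * (y + z) = (y + z) * b := fun b hb => by
      rw [mul_add, add_mul, hyt b hb, hzt b hb]
    have ha' : s (y + z) - s y - s z ∈ t :=
      t.sub_mem (t.sub_mem (hst _ hyz hyzt) (hst y hy hyt)) (hst z hz hzt)
    have h1 : s (y + z) - s y - s z = (y - s y) + (z - s z) - ((y + z) - s (y + z)) := by abel
    have h2 : aeval (s (y + z) - s y - s z) (X : K[X]) = 0 := by
      refine tr_zero (hd _ ha') X fun p => ?_
      rw [aeval_X, LinearMap.trace_mul_comm]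
      nth_rewrite 1 [h1]
      rw [sub_mul, add_mul, map_sub, map_add, htr y hy hyt _ ha' p, htr z hz hzt _ ha' p,
        htr _ hyz hyzt _ ha' p, add_zero, sub_zero]
    rw [aeval_X] at h2
    have h3 : (y - s y) + (z - s z) = (y + z) - s (y + z) := by
      rw [h1, sub_eq_zero] at h2
      exact h2
    have h4 : IsNilpotent ((y - s y) + (z - s z)) := by
      rw [h3]
      exact (hs _ hyz).2.1
    have h5 := tr_nil (x := (y - s y) + (z - s z)) rfl h4
    have h6 := tr_nil (x := y - s y) rfl (hs y hy).2.1
    have h7 := tr_nil (x := z - s z) rfl (hs z hz).2.1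
    rw [mul_add, add_mul, add_mul, map_add, map_add, map_add, h6, h7,
      LinearMap.trace_mul_comm K (z - s z) (y - s y), zero_add, add_zero, ← two_mul] at h5
    exact (mul_eq_zero.1 h5).resolve_left two_ne_zero
  -- conclusion
  intro x hx hxt
  have hxa : a * (x - s x) = (x - s x) * a := hnt x hx hxt a ha
  have h1 : x - s x = 0 := by
    refine nondeg_cen G hG hnd (htG ha) (hd a ha) (G.sub_mem hx (hsG x hx)) hxa ?_
    intro y hy hya
    have hyt := hcomm y hya
    have h2 : y = s y + (y - s y) := by abel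
    rw [h2, mul_add, map_add, hadd x hx hxt y hy hyt, add_zero]
    exact tr_nil (hnt x hx hxt _ (hst y hy hyt)).symm (hs x hx).2.1
  rw [sub_eq_zero] at h1
  rw [h1]
  exact hst x hx hxt

end main

end Pool.Agent.Y785.RM
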